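import Pool.Agent.Lib.MP_30b5ba_nt.P.Fin
import Pool.Agent.Lib.MP_30b5ba_nt.P.LC
import Pool.Agent.Lib.MP_30b5ba_nt.P.Prim
import Pool.Agent.Lib.MP_30b5ba_nt.P.Mertens
import Pool.Agent.Lib.MP_30b5ba_nt.P.Move
import Pool.Agent.Lib.MP_30b5ba_nt.P.PP
import Pool.Agent.Lib.MP_30b5ba_nt.P.Tail
import Pool.Agent.Lib.MP_30b5ba_nt.P.Shift
import Pool.Agent.Lib.MP_30b5ba_nt.P.L2
import Pool.Agent.Lib.MP_30b5ba_nt.P.Delta
import Pool.Agent.Lib.MP_30b5ba_nt.P.A0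
import Pool.Agent.Lib.MP_30b5ba_nt.P.A1
import Pool.Agent.Lib.MP_30b5ba_nt.P.Sieve
import Pool.Agent.Lib.MP_30b5ba_nt.P.Typ
import Pool.Agent.Lib.MP_30b5ba_nt.P.Gd
import Pool.Agent.Lib.MP_30b5ba_nt.P.Good
import Pool.Agent.Lib.MP_30b5ba_nt.P.Cmp
import Pool.Agent.Lib.MP_30b5ba_nt.P.Box
import Pool.Agent.Lib.MP_30b5ba_nt.P.Half

/-!
MP_30b5ba_nt: for every badly approximable `α` the pair correlation of `α n²` modulo one is
Poissonian.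
-/

namespace Pool.Agent.Results.MP_30b5ba_nt.BadlyApproximable

open Pool.Agent.Lib.MP_30b5ba_nt Pool.Agent.Lib.MP_30b5ba_nt.P Filter Topology

theorem result (α : ℝ)
    (hα : ∃ c : ℝ, 0 < c ∧ ∀ (p : ℤ) (q : ℕ), 1 ≤ q → c / (q : ℝ) ^ 2 ≤ |α - p / q|)
    (a b : ℝ) (ha : 0 ≤ a) (hab : a ≤ b) (hb : b ≤ 1) :
    Tendsto (fun N : ℕ => R2 a b N α) atTop (𝓝 (b - a)) := by
  obtain ⟨c, hc, h⟩ := hα
  have hT := tail (pp prim bohr brun mertens (move prim))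
  have hU := ui lc hT
  have hS := sieve lc brun mertens
  have hC := cmp (good (a0 l2) (a1 mertens delta) hS) hU (typ mertens) gd (sq hS)
  exact poissonian (half (boxlim hC (shift lc hT)) hU) hc (bad_of_approx h) a b ha hab hb

end Pool.Agent.Results.MP_30b5ba_nt.BadlyApproximable
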