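import Pool.Agent.Lib.MP_30b5ba_nt.Upper
import Pool.Agent.Lib.MP_30b5ba_nt.Lower

/-!
MP_30b5ba_nt: the set of real `α` for which the pair correlation of `α n²` modulo one is not
Poissonian has Hausdorff dimension exactly `2/3`.
-/

namespace Pool.Agent.Results.MP_30b5ba_nt.ExceptionalDim

open Pool.Agent.Lib.MP_30b5ba_nt

theorem result : dimH {α : ℝ | ¬Poissonian α} = 2 / 3 :=
  le_antisymm Pool.Agent.Lib.MP_30b5ba_nt.dimH_le le_dimH

end Pool.Agent.Results.MP_30b5ba_nt.ExceptionalDim
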